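import Pool.Agent.H958.RL.Stm2
import Pool.Agent.H9.TD.Tail

/-!
# Project RL2 (helper958): S_COL (helper675)
-/

set_option autoImplicit false

namespace Pool.Agent.H675.RL.Col

open Finset
open scoped Classical
open Pool.Agent.H958.RL
open Pool.Agent.Helper635.LLL (cnt ev mem_ev DependsOn)

noncomputable section

/-- the number of functions which are constant on a given set -/
theorem card_const {α : Type} [Fintype α] (K : ℕ) (W : Finset α) (j : Fin K) :
    (univ.filter (fun ω : α → Fin K => ∀ u ∈ W, ω u = j)).card * K ^ W.card =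
      K ^ Fintype.card α := by
  have h1 : univ.filter (fun ω : α → Fin K => ∀ u ∈ W, ω u = j) =
      Fintype.piFinset (fun u => if u ∈ W then ({j} : Finset (Fin K)) else univ) := by
    ext ω
    rw [mem_filter, Fintype.mem_piFinset]
    constructor
    · rintro ⟨-, h⟩ u
      by_cases hu : u ∈ W
      · rw [if_pos hu, mem_singleton]
        exact h u hu
      · rw [if_neg hu]
        exact mem_univ _
    · intro h
      refine ⟨mem_univ _, fun u hu => ?_⟩
      have := h u
      rw [if_pos hu, mem_singleton] at this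
      exact this
  rw [h1, Fintype.card_piFinset]
  have h2 : ∀ u : α, (if u ∈ W then ({j} : Finset (Fin K)) else univ).card =
      if u ∈ W then 1 else K := by
    intro u
    split_ifs
    · exact card_singleton j
    · rw [card_univ, Fintype.card_fin]
  rw [prod_congr rfl (fun u _ => h2 u)]
  have h3 : K ^ W.card = ∏ u : α, (if u ∈ W then K else 1) := by
    rw [prod_ite_mem, univ_inter, prod_const]
  rw [h3, ← prod_mul_distrib]
  have h4 : ∀ u : α, (if u ∈ W then 1 else K) * (if u ∈ W then K else 1) = K := by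
    intro u
    split_ifs <;> simp
  rw [prod_congr rfl (fun u _ => h4 u), prod_const, card_univ]

theorem cnt_bad {α : Type} [Fintype α] (K s : ℕ) (V : Finset α) (hK : 1 ≤ K) (hV : V.card ≤ K) :
    (univ.filter (fun ω : α → Fin K => ∃ j, s + 1 ≤ (V.filter (fun u => ω u = j)).card)).card *
      (s + 1).factorial ≤ K * K ^ Fintype.card α := by
  have h1 : univ.filter (fun ω : α → Fin K => ∃ j, s + 1 ≤ (V.filter (fun u => ω u = j)).card) ⊆
      (univ ×ˢ powersetCard (s + 1) V).biUnion (fun q : Fin K × Finset α =>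
        univ.filter (fun ω : α → Fin K => ∀ u ∈ q.2, ω u = q.1)) := by
    intro ω hω
    obtain ⟨j, hj⟩ := (mem_filter.1 hω).2
    obtain ⟨W, hW, hWc⟩ := exists_subset_card_eq hj
    refine mem_biUnion.2 ⟨(j, W), mem_product.2 ⟨mem_univ _, mem_powersetCard.2
      ⟨fun u hu => (mem_filter.1 (hW hu)).1, hWc⟩⟩, mem_filter.2 ⟨mem_univ _, fun u hu => ?_⟩⟩
    exact (mem_filter.1 (hW hu)).2
  have h2 := (card_le_card h1).trans card_biUnion_le
  have hpos : 0 < K ^ (s + 1) := Nat.pow_pos hK
  refine Nat.le_of_mul_le_mul_right ?_ hpos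
  have h3 : (∑ q ∈ (univ ×ˢ powersetCard (s + 1) V : Finset (Fin K × Finset α)),
      (univ.filter (fun ω : α → Fin K => ∀ u ∈ q.2, ω u = q.1)).card) * K ^ (s + 1) =
      (K * V.card.choose (s + 1)) * K ^ Fintype.card α := by
    rw [sum_mul]
    rw [sum_congr rfl (g := fun _ => K ^ Fintype.card α)]
    · rw [sum_const, card_product, card_powersetCard, card_univ, Fintype.card_fin, smul_eq_mul]
    · intro q hq
      have := (mem_powersetCard.1 (mem_product.1 hq).2).2
      rw [← this]
      exact card_const K q.2 q.1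
  have h4 : V.card.choose (s + 1) * (s + 1).factorial ≤ K ^ (s + 1) := by
    rw [mul_comm, ← Nat.descFactorial_eq_factorial_mul_choose]
    exact (Nat.descFactorial_le_pow _ _).trans (Nat.pow_le_pow_left hV _)
  calc (univ.filter (fun ω : α → Fin K => ∃ j, s + 1 ≤ (V.filter (fun u => ω u = j)).card)).card *
        (s + 1).factorial * K ^ (s + 1)
      = ((univ.filter (fun ω : α → Fin K => ∃ j, s + 1 ≤ (V.filter (fun u => ω u = j)).card)).card
          * K ^ (s + 1)) * (s + 1).factorial := by ring
    _ ≤ ((K * V.card.choose (s + 1)) * K ^ Fintype.card α) * (s + 1).factorial := by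
        rw [← h3]
        exact Nat.mul_le_mul_right _ (Nat.mul_le_mul_right _ h2)
    _ = K * K ^ Fintype.card α * (V.card.choose (s + 1) * (s + 1).factorial) := by ring
    _ ≤ K * K ^ Fintype.card α * K ^ (s + 1) := Nat.mul_le_mul_left _ h4

theorem main : S_COL := by
  intro α _ K s X U hK h1 h2 h3
  have hf : (0 : ℝ) < ((s + 1).factorial : ℝ) := by exact_mod_cast Nat.factorial_pos _
  have h3' : (4 : ℝ) * (K : ℝ) ^ 3 ≤ ((s + 1).factorial : ℝ) := by exact_mod_cast h3
  obtain ⟨ω, hω⟩ := Pool.Agent.H9.TD.lll' (T := α) K X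
    (fun x (ω : α → Fin K) => ∃ j, s + 1 ≤ ((U x).filter (fun u => ω u = j)).card) U
    (by
      intro x _ ω ω' hag hB
      obtain ⟨j, hj⟩ := hB
      refine ⟨j, hj.trans (card_le_card ?_)⟩
      intro u hu
      obtain ⟨hu1, hu2⟩ := mem_filter.1 hu
      exact mem_filter.2 ⟨hu1, (hag u hu1) ▸ hu2⟩)
    ((K : ℝ) / ((s + 1).factorial : ℝ)) (K ^ 2) (by positivity)
    (by
      intro x hx
      have hc : cnt (fun ω : α → Fin K =>
          ∃ j, s + 1 ≤ ((U x).filter (fun u => ω u = j)).card) * (s + 1).factorial ≤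
          K * K ^ Fintype.card α := by
        unfold Pool.Agent.Helper635.LLL.cnt Pool.Agent.Helper635.LLL.ev
        convert cnt_bad K s (U x) hK (h1 x hx)
      have h' : ((cnt (fun ω : α → Fin K =>
          ∃ j, s + 1 ≤ ((U x).filter (fun u => ω u = j)).card) : ℕ) : ℝ) *
          ((s + 1).factorial : ℝ) ≤ (K : ℝ) * (K : ℝ) ^ Fintype.card α := by
        exact_mod_cast hc
      rw [div_mul_eq_mul_div, le_div_iff₀ hf]
      exact h')
    (by
      intro x hx F hF hnd
      have hsub : F ⊆ (U x).biUnion (fun u => X.filter (fun z => u ∈ U z)) := by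
        intro z hz
        obtain ⟨u, hu1, hu2⟩ := not_disjoint_iff.1 (hnd z hz)
        exact mem_biUnion.2 ⟨u, hu1, mem_filter.2 ⟨hF hz, hu2⟩⟩
      calc F.card ≤ ((U x).biUnion (fun u => X.filter (fun z => u ∈ U z))).card :=
            card_le_card hsub
        _ ≤ (U x).card * K := card_biUnion_le_card_mul _ _ _ fun u _ => h2 u
        _ ≤ K * K := Nat.mul_le_mul_right K (h1 x hx)
        _ = K ^ 2 := (sq K).symm)
    (by
      push_cast
      rw [mul_div_assoc', div_mul_eq_mul_div, div_le_one hf]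
      calc 4 * (K : ℝ) * (K : ℝ) ^ 2 = 4 * (K : ℝ) ^ 3 := by ring
        _ ≤ _ := h3')
    (Nat.pow_pos hK) hK
  refine ⟨ω, fun x hx j => ?_⟩
  have h := hω x hx
  push Not at h
  exact Nat.lt_succ_iff.1 (h j)

end

end Pool.Agent.H675.RL.Col
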