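import Pool.Agent.H958.RL.Stm2
import Pool.Agent.H397.RO.Step

/-!
# Project RL2 (helper958): the theorem of Füredi and Kahn (helper675)
-/

set_option autoImplicit false

namespace Pool.Agent.H675.RL.FK

open Finset
open scoped Classical
open Pool.Agent.H958.RL
open Pool.Agent.H958.RO (Rev)
open Pool.Agent.H397.RO.Step (mf mf_le lt_mf mf_mono)

noncomputable section

theorem two_pow_le (n : ℕ) : 2 ^ n ≤ (n + 1).factorial := by
  induction n with
  | zero => simp
  | succ n ih =>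
    rw [pow_succ, Nat.factorial_succ, mul_comm]
    exact Nat.mul_le_mul (by omega) ih

theorem num (K : ℕ) : 4 * K ^ 3 ≤ (fs K + 1).factorial := by
  have h1 : K ≤ 2 ^ Nat.clog 2 K := Nat.le_pow_clog (by norm_num) K
  have h2 := two_pow_le (3 * Nat.clog 2 K + 2)
  have h3 : 2 ^ (3 * Nat.clog 2 K + 2) = 4 * (2 ^ Nat.clog 2 K) ^ 3 := by
    rw [pow_add, pow_mul']
    ring
  calc 4 * K ^ 3 ≤ 4 * (2 ^ Nat.clog 2 K) ^ 3 := Nat.mul_le_mul_left _ (Nat.pow_le_pow_left h1 _)
    _ = 2 ^ (3 * Nat.clog 2 K + 2) := h3.symm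
    _ ≤ _ := h2

variable {α : Type} [Fintype α]

/-- the weights -/
def wt {K m t : ℕ} (χ : α → Fin K) (h : α → Fin m) (σ : Fin t → Fin m → ℕ) (e : α → ℕ) (N M : ℕ)
    (j : Fin K) (s : Fin 2) (i : Fin t) (u : α) : ℕ :=
  if χ u = j then (σ i (h u) * (N + 1) + if s = 0 then e u else N - e u) else (M + 1) * (N + 1)

theorem main (h1 : S_COL) (h2 : S_HCOL) (h3 : S_PERM) : S_FK := by
  intro α _ le K X hr ht hU hD
  rcases Nat.eq_zero_or_pos K with rfl | hK
  · have hX : ∀ x, ¬ X x := by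
      intro x hx
      have h := hU x hx
      have h' : 0 < (univ.filter (fun u => le x u)).card :=
        card_pos.2 ⟨x, mem_filter.2 ⟨mem_univ x, hr x⟩⟩
      omega
    exact ⟨fun _ _ => 0, fun _ _ _ _ => le_rfl, fun x y hxy => absurd hxy.1 (hX x)⟩
  have hsp : ∀ u, ((univ.filter X).filter
      (fun x => u ∈ univ.filter (fun v => le x v))).card ≤ K := by
    intro u
    rcases ((univ.filter X).filter
      (fun x => u ∈ univ.filter (fun v => le x v))).eq_empty_or_nonempty with he | ⟨x, hx⟩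
    · rw [he, card_empty]
      exact Nat.zero_le K
    · obtain ⟨hx1, hx2⟩ := mem_filter.1 hx
      refine (card_le_card ?_).trans (hD x (mem_filter.1 hx1).2 u (mem_filter.1 hx2).2)
      intro y hy
      exact mem_filter.2 ⟨mem_univ y, (mem_filter.1 (mem_filter.1 hy).2).2⟩
  obtain ⟨χ, hχ⟩ := h1 α K (fs K) (univ.filter X) (fun x => univ.filter (fun u => le x u)) hK
    (fun x hx => hU x (mem_filter.1 hx).2) hsp (num K)
  obtain ⟨h, hh⟩ := h2 α K (univ.filter X) (fun x => univ.filter (fun u => le x u))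
    (fun x hx => hU x (mem_filter.1 hx).2) hsp
  obtain ⟨σ, -, hσ⟩ := h3 (K ^ 2 + 1) (fs K)
    ((fs K + 1) ^ 2 * (Nat.clog 2 (K ^ 2 + 1) + 1)) le_rfl
  set N := Fintype.card α with hN
  let e : α → ℕ := fun u => ((Fintype.equivFin α) u : ℕ)
  have heN : ∀ u, e u < N := fun u => ((Fintype.equivFin α) u).isLt
  have hei : ∀ u v, e u = e v → u = v := fun u v h =>
    (Fintype.equivFin α).injective (Fin.ext h)
  obtain ⟨M, hM⟩ : ∃ M : ℕ, ∀ i a, σ i a ≤ M :=
    ⟨∑ i, ∑ a, σ i a, fun i a => (single_le_sum (f := fun a => σ i a)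
      (fun _ _ => Nat.zero_le _) (mem_univ a)).trans
      (single_le_sum (f := fun i => ∑ a, σ i a) (fun _ _ => Nat.zero_le _) (mem_univ i))⟩
  refine ⟨fun q => mf le hr (wt χ h σ e N M (finProdFinEquiv.symm q).1
      (finProdFinEquiv.symm (finProdFinEquiv.symm q).2).1
      (finProdFinEquiv.symm (finProdFinEquiv.symm q).2).2),
    fun q x y h => mf_mono le hr ht _ x y h, ?_⟩
  rintro x y ⟨hx, hxy⟩
  suffices hs : ∃ (j : Fin K) (s : Fin 2)
      (i : Fin ((fs K + 1) ^ 2 * (Nat.clog 2 (K ^ 2 + 1) + 1))),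
      mf le hr (wt χ h σ e N M j s i) y < mf le hr (wt χ h σ e N M j s i) x by
    obtain ⟨j, s, i, hs⟩ := hs
    refine ⟨finProdFinEquiv (j, finProdFinEquiv (s, i)), ?_⟩
    simpa using hs
  have hxX : x ∈ univ.filter X := mem_filter.2 ⟨mem_univ x, hx⟩
  set H : Finset (Fin (K ^ 2 + 1)) := (((univ.filter (fun u => le x u)).filter
    (fun u => χ u = χ y)).image h).erase (h y) with hH
  have hHc : H.card ≤ fs K :=
    (card_le_card (erase_subset _ _)).trans (card_image_le.trans (hχ x hxX (χ y)))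
  obtain ⟨i, hi⟩ := hσ (h y) H hHc (notMem_erase _ _)
  have hbig : ∀ (s : Fin 2), wt χ h σ e N M (χ y) s i y < (σ i (h y) + 1) * (N + 1) := by
    intro s
    unfold wt
    rw [if_pos rfl, add_mul, one_mul]
    have := heN y
    split_ifs <;> omega
  -- elements of another colour, or with another value of `h`
  have hoth : ∀ (s : Fin 2) (u : α), le x u → ¬ (χ u = χ y ∧ h u = h y) →
      wt χ h σ e N M (χ y) s i y < wt χ h σ e N M (χ y) s i u := by
    intro s u hxu hne
    refine lt_of_lt_of_le (hbig s) ?_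
    by_cases hc : χ u = χ y
    · have hne' : h u ≠ h y := fun hu => hne ⟨hc, hu⟩
      have hmem : h u ∈ H := mem_erase.2 ⟨hne', mem_image.2 ⟨u, mem_filter.2
        ⟨mem_filter.2 ⟨mem_univ u, hxu⟩, hc⟩, rfl⟩⟩
      have hlt := hi (h u) hmem
      unfold wt
      rw [if_pos hc]
      exact (Nat.mul_le_mul_right _ hlt).trans (Nat.le_add_right _ _)
    · unfold wt
      rw [if_neg hc]
      exact Nat.mul_le_mul_right _ (Nat.succ_le_succ (hM i (h y)))
  by_cases hu : ∃ u, le x u ∧ χ u = χ y ∧ h u = h y ∧ e u < e y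
  · obtain ⟨u, hxu, hcu, hhu, hlt⟩ := hu
    refine ⟨χ y, 1, i, lt_of_le_of_lt (mf_le le hr _ y y (hr y)) (lt_mf le hr _ x _ ?_)⟩
    intro v hv
    by_cases hc : χ v = χ y ∧ h v = h y
    · have hvu : v = u := hh x hxX v (mem_filter.2 ⟨mem_univ v, hv⟩) u
        (mem_filter.2 ⟨mem_univ u, hxu⟩) (hc.2.trans hhu.symm)
      subst hvu
      unfold wt
      rw [if_pos rfl, if_pos hc.1, hc.2, if_neg (by decide), if_neg (by decide)]
      have := heN y
      omega
    · exact hoth 1 v hv hc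
  · push Not at hu
    refine ⟨χ y, 0, i, lt_of_le_of_lt (mf_le le hr _ y y (hr y)) (lt_mf le hr _ x _ ?_)⟩
    intro v hv
    by_cases hc : χ v = χ y ∧ h v = h y
    · have h4 := hu v hv hc.1 hc.2
      have hne : e v ≠ e y := fun h => hxy (hei v y h ▸ hv)
      unfold wt
      rw [if_pos rfl, if_pos hc.1, hc.2, if_pos rfl, if_pos rfl]
      omega
    · exact hoth 0 v hv hc

end

end Pool.Agent.H675.RL.FK
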