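import Pool.Agent.H958.RL.Stm2
import Pool.Agent.H397.RO.Step

/-!
# Project RL2 (helper958): S_HCOL (helper675)
-/

set_option autoImplicit false

namespace Pool.Agent.H675.RL.Hcol

open Finset
open scoped Classical
open Pool.Agent.H958.RL

noncomputable section

theorem main : S_HCOL := by
  intro α _ K X U h1 h2
  obtain ⟨R, hR⟩ : ∃ R : α → α → Prop, ∀ u v, R u v ↔ (u ≠ v ∧ ∃ x ∈ X, u ∈ U x ∧ v ∈ U x) :=
    ⟨_, fun _ _ => Iff.rfl⟩
  have hdeg : ∀ a, (univ.filter (fun b => R a b)).card ≤ K ^ 2 := by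
    intro a
    set A : Finset α := X.filter (fun x => a ∈ U x) with hA
    have hsub : univ.filter (fun b => R a b) ⊆ A.biUnion U := by
      intro b hb
      obtain ⟨-, x, hx, hxa, hxb⟩ := (hR a b).1 (mem_filter.1 hb).2
      exact mem_biUnion.2 ⟨x, mem_filter.2 ⟨hx, hxa⟩, hxb⟩
    calc (univ.filter (fun b => R a b)).card
        ≤ (A.biUnion U).card := card_le_card hsub
      _ ≤ A.card * K := card_biUnion_le_card_mul _ _ _ fun x hx => h1 x (mem_filter.1 hx).1
      _ ≤ K * K := Nat.mul_le_mul_right K (h2 a)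
      _ = K ^ 2 := (sq K).symm
  obtain ⟨h, hh⟩ := Pool.Agent.H397.RO.Step.greedy R (K ^ 2) (fun a b h => by
      obtain ⟨hne, x, hx, hxa, hxb⟩ := (hR a b).1 h
      exact (hR b a).2 ⟨hne.symm, x, hx, hxb, hxa⟩) (fun a h => ((hR a a).1 h).1 rfl) hdeg
  refine ⟨h, fun x hx u hu v hv huv => ?_⟩
  by_contra hne
  exact hh u v ((hR u v).2 ⟨hne, x, hx, hu, hv⟩) huv

end

end Pool.Agent.H675.RL.Hcol
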